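import Mathlib
import Pool.Agent.H25.Dis

open PowerSeries Finset Pool.Agent.H25.Dis

namespace Pool.Agent.Results.MP_8976f7_nt.Eleven

/-- The series `1 / (1 - x ^ d) = 1 + x ^ d + x ^ (2 d) + ⋯`. -/
noncomputable def geom (d : ℕ) : ℤ⟦X⟧ := PowerSeries.mk fun j => if d ∣ j then 1 else 0

/-- `A m k n`: the coefficient of `x ^ n` in `∏ i, (1 - x ^ m ^ i) ^ (-k)`; the factors with
`i > n` are `1` modulo `x ^ (n + 1)` and are left out. -/
noncomputable def A (m k n : ℕ) : ℤ := coeff n (∏ i ∈ range (n + 1), geom (m ^ i) ^ k)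

lemma ex_geom (d : ℕ) : ex (geom d) = geom (2 * d) := by
  ext j
  rw [coeff_expand, geom, geom, coeff_mk, coeff_mk]
  by_cases h : 2 ∣ j
  · simp [h, Nat.dvd_div_iff_mul_dvd h]
  · rw [if_neg h, if_neg fun h' => h (dvd_of_mul_right_dvd h')]

def L : List (List ℤ) := List.map (fun p : ℕ × List ℤ => List.replicate p.1 0 ++ p.2) [
  (12, [2]), (12, [2, 16]), (12, [4]), (12, [4, 16]), (12, [6]), (12, [6, 16]), (12, [8]),
  (12, [10]), (12, [10, 16]), (12, [12]), (12, [12, 16]), (12, [14]), (12, [14, 16]),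
  (12, [16]), (12, [18]), (12, [18, 16]), (12, [20]), (12, [20, 16]), (12, [22]),
  (12, [22, 16]), (12, [24]), (12, [26]), (12, [26, 16]), (12, [28]), (12, [28, 16]),
  (12, [30]), (12, [30, 16]), (11, [1, 2, 16]), (11, [4, 8]), (11, [4, 16]), (11, [9, 4]),
  (11, [9, 12]), (11, [9, 20, 16]), (11, [9, 28, 16]), (11, [11, 12]), (11, [11, 22, 16]),
  (11, [11, 28, 16]), (11, [12, 16]), (11, [12, 24]), (11, [13, 4, 16]), (11, [13, 20]),
  (11, [13, 26, 16]), (11, [15, 12, 16]), (11, [15, 28]), (11, [17, 10, 16]), (11, [19, 4]),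
  (11, [19, 20, 16]), (11, [19, 30, 16]), (11, [20, 8]), (11, [20, 16]), (11, [21, 12, 16]),
  (11, [21, 18, 16]), (11, [21, 28]), (11, [23, 6, 16]), (11, [23, 14, 16]), (11, [28, 16]),
  (11, [28, 24]), (11, [31, 4, 16]), (11, [31, 20]), (10, [9, 16, 8]), (10, [19, 0, 24]),
  (10, [21, 16, 8]), (10, [31, 0, 24]), (9, [9, 24]), (9, [19, 24]), (9, [21, 24]),
  (9, [31, 24]), (6, [21, 28, 16]), (6, [31, 28, 16]), (0, [1])]

lemma closed : ∀ l ∈ L, ¬ 32 ∣ l.sum ∧ ∀ b < 2, ∃ l' ∈ L, ∀ a ∈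
    ad (ub b (List.replicate 11 0 ++ l)) (l'.map (-1 * ·)), 32 ∣ a := by decide +kernel

lemma dvd_ev (l : List ℤ) (h : ∀ a ∈ l, 32 ∣ a) : C 32 ∣ ev l := by
  induction l with
  | nil => exact dvd_zero _
  | cons a l ih =>
    exact dvd_add (map_dvd _ (h a (by simp))) ((ih fun b hb => h b (by simp [hb])).mul_left _)

lemma ev_zero (l : List ℤ) : constantCoeff (ev l) = l.sum := by
  induction l <;> simp [ev, y, *]

lemma main (N : ℕ) : ∀ l ∈ L, ∀ n < 2 ^ N,
    ¬ 32 ∣ coeff n (ev l * ∏ i ∈ range N, geom (2 ^ i) ^ 11) := by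
  induction N with
  | zero => simpa [ev_zero] using fun l hl => (closed l hl).1
  | succ N ih =>
    intro l hl n hn
    have hb := Nat.mod_lt n two_pos
    obtain ⟨l', h1, h2⟩ := (closed l hl).2 _ hb
    obtain ⟨D, hD⟩ := dvd_ev _ h2
    have e : ev l * ∏ i ∈ range (N + 1), geom (2 ^ i) ^ 11 =
        ev (List.replicate 11 0 ++ l) * ex (∏ i ∈ range N, geom (2 ^ i) ^ 11) := by
      have : geom 1 = y := by ext; simp [geom, y]
      simp [prod_range_succ', ev, ex_geom, pow_succ' 2, this]; ring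
    rw [ev_ad, ev_map, ev_ub hb, map_neg, neg_mul, map_one, one_mul, add_neg_eq_iff_eq_add] at hD
    rw [e, ← Nat.div_add_mod n 2, ← coeff_U, U_mul hb, hD, add_mul, map_add, mul_assoc,
      coeff_C_mul, dvd_add_right (dvd_mul_right _ _)]
    exact ih l' h1 _ (by omega)

theorem result : ¬ ∀ p k : ℕ, p.Prime → 1 ≤ k →
    (¬ ∃ s u : ℕ, 1 ≤ u ∧ u ≤ p - 1 ∧ k = (p - 1) * (u * p ^ s - 1)) →
    ∀ B : ℕ, ∃ n, (p : ℤ) ^ B ∣ A p k n := fun h => by
  obtain ⟨n, hn⟩ := h 2 11 Nat.prime_two (by norm_num) (by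
    rintro ⟨s, u, h1, h2, h3⟩
    obtain rfl : u = 1 := by omega
    have : 3 ∣ 2 ^ s := by omega
    simpa using Nat.prime_three.dvd_of_dvd_pow this) 5
  refine main (n + 1) [1] (by decide) n (n.lt_succ_self.trans Nat.lt_two_pow_self) ?_
  simpa [ev, A] using hn

end Pool.Agent.Results.MP_8976f7_nt.Eleven
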